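import Mathlib
import Pool.Prelude.Def_F_72ad9e24
import Pool.Agent.TH76.LehP.Uni
import Pool.Agent.H95R2.Leh.Congr

set_option autoImplicit false

/-!
# The least prime factor and the quotient of a composite `n` with `φ(n) ∣ n - a(n)`

Let `n > 4` be composite with `φ(n) ∣ n - a(n)`, where `a(n)` is the largest exponent in the prime
factorisation of `n`; let `P` be its least prime factor, `ω(n)` the number of its prime factors and
`K = (n - a(n)) / φ(n)`.  Then `a(n) = 1`, `K ≥ 2`, and, with absolute constants `δ, c, C > 0`,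

* `ω(n) ≥ c P ^ max((1 + δ) K, exp(δ K))`; in particular `ω(n) ≥ c P ^ (2 + 2 δ)`;
* `exp(δ K) ≤ C log ω(n)`, and `K ≤ C log log log n` for `n ≥ 16`.

No prime factor of `n` is congruent to `1` modulo another one (`n` is coprime to `φ(n)`), and the
statement follows from the bound `unified` of the starting library (`Pool.Agent.TH76.LehP`) for all
integers coprime to their totient, which rests on the theorems of Bombieri-Vinogradov and
Brun-Titchmarsh and on the sieve.
-/

namespace Pool.Agent.Results.MP_b50d59_nt.LeastPrimeFactor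

open Pool.Agent.H95R2.Leh Nca8c8b9b

lemma leh_coprime {n : ℕ} (h : Leh n) : Nat.Coprime n n.totient := by
  obtain ⟨h1, _, h3⟩ := h
  have h4 : Nat.gcd n n.totient ∣ 1 := by
    have h5 : Nat.gcd n n.totient ∣ n - (n - 1) :=
      Nat.dvd_sub (Nat.gcd_dvd_left _ _) ((Nat.gcd_dvd_right _ _).trans h3)
    have h6 : n - (n - 1) = 1 := by omega
    rwa [h6] at h5
  exact Nat.dvd_one.1 h4

lemma leh_a {n : ℕ} (h : Leh n) : a n = 1 := by
  have hco := leh_coprime h
  have h1 := h.1
  obtain ⟨p, hp, hpn, hpa⟩ := a_mem (show 2 ≤ n by omega)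
  have hn0 : n ≠ 0 := by omega
  have h2 : 1 ≤ n.factorization p := (hp.dvd_iff_one_le_factorization hn0).mp hpn
  rw [← hpa]
  by_contra hne
  have h3 : 2 ≤ n.factorization p := by omega
  have h4 : p ^ 2 ∣ n := (hp.pow_dvd_iff_le_factorization hn0).2 h3
  have h5 : p ∣ n.totient := by
    have h6 := Nat.totient_dvd_of_dvd h4
    rw [Nat.totient_prime_pow hp (by norm_num)] at h6
    exact (Dvd.dvd.mul_right (dvd_pow_self p (by norm_num)) _).trans h6
  have h7 : p ∣ Nat.gcd n n.totient := Nat.dvd_gcd hpn h5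
  rw [hco] at h7
  exact hp.one_lt.ne' (Nat.dvd_one.1 h7)

lemma leh_omega {n : ℕ} (h : Leh n) : 2 ≤ n.primeFactors.card := by
  have hco := leh_coprime h
  obtain ⟨h1, h2, h3⟩ := h
  have hn0 : n ≠ 0 := by omega
  by_contra hlt
  have hne : n.primeFactors.Nonempty := Nat.nonempty_primeFactors.2 h1
  have hc1 : n.primeFactors.card = 1 := by
    have := Finset.card_pos.2 hne
    omega
  have hpp : IsPrimePow n := isPrimePow_iff_card_primeFactors_eq_one.2 hc1
  obtain ⟨p, k, hp, hk, hpk⟩ := hpp
  have hp' : p.Prime := hp.nat_prime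
  have hk1 : k ≠ 1 := by
    intro hk1
    rw [hk1, pow_one] at hpk
    exact h2 (hpk ▸ hp')
  have hpn : p ∣ n := by rw [← hpk]; exact dvd_pow_self p (by omega)
  have h5 : p ∣ n.totient := by
    rw [← hpk, Nat.totient_prime_pow hp' hk]
    exact Dvd.dvd.mul_right (dvd_pow_self p (by omega)) _
  have h7 : p ∣ Nat.gcd n n.totient := Nat.dvd_gcd hpn h5
  rw [hco] at h7
  exact hp'.one_lt.ne' (Nat.dvd_one.1 h7)

lemma two_pow_omega {n : ℕ} (hn : n ≠ 0) : 2 ^ n.primeFactors.card ≤ n := by
  calc 2 ^ n.primeFactors.card = ∏ _p ∈ n.primeFactors, 2 := by rw [Finset.prod_const]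
    _ ≤ ∏ p ∈ n.primeFactors, p :=
        Finset.prod_le_prod' fun p hp => (Nat.prime_of_mem_primeFactors hp).two_le
    _ ≤ n := Nat.le_of_dvd (Nat.pos_of_ne_zero hn) (Nat.prod_primeFactors_dvd n)

/-- There are absolute `δ, c, C > 0` such that for every composite `n > 4` with `φ(n) ∣ n - a(n)`
(`a(n)` the largest exponent in the prime factorisation) the quotient `K = (n - a(n)) / φ(n)` is at
least two, `n` has at least `c P ^ max((1 + δ) K, exp(δ K))` distinct prime factors, `P` being the
least one, `exp(δ K) ≤ C log ω(n)`, and `K ≤ C log log log n` if `n ≥ 16`. -/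
theorem result : ∃ δ c C : ℝ, 0 < δ ∧ 0 < c ∧ 0 < C ∧ ∀ n : ℕ, 4 < n → ¬ n.Prime →
    n.totient ∣ (n - a n) → ∃ K : ℕ, n - a n = K * n.totient ∧ 2 ≤ K ∧
      c * (n.minFac : ℝ) ^ (max ((1 + δ) * (K : ℝ)) (Real.exp (δ * K))) ≤
        (n.primeFactors.card : ℝ) ∧
      Real.exp (δ * K) ≤ C * Real.log (n.primeFactors.card : ℝ) ∧
      (16 ≤ n → (K : ℝ) ≤ C * Real.log (Real.log (Real.log n))) := by
  obtain ⟨δ, c, hδ, hc, h⟩ := Pool.Agent.TH76.LehP.unified
  have hl2 : 0 < Real.log 2 := Real.log_pos (by norm_num)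
  obtain ⟨A, hA⟩ : ∃ A : ℝ, A = (1 + |Real.log c| / Real.log 2) / Real.log 2 := ⟨_, rfl⟩
  have hA0 : 0 < A := by rw [hA]; positivity
  -- the value of the triple logarithm at 16
  have h16 : 1 < Real.log (Real.log 16) := by
    have h1 : Real.log 16 = 4 * Real.log 2 := by
      rw [show (16 : ℝ) = 2 ^ 4 by norm_num, Real.log_pow]; norm_num
    have h2 := Real.log_two_gt_d9
    have h3 := Real.exp_one_lt_d9
    rw [Real.lt_log_iff_exp_lt (by rw [h1]; linarith), h1]
    linarith
  obtain ⟨L, hL⟩ : ∃ L : ℝ, L = Real.log (Real.log (Real.log 16)) := ⟨_, rfl⟩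
  have hL0 : 0 < L := by rw [hL]; exact Real.log_pos h16
  obtain ⟨B, hB⟩ : ∃ B : ℝ, B = (1 + |Real.log (2 * A)| / L) / δ := ⟨_, rfl⟩
  have hB0 : 0 < B := by rw [hB]; positivity
  refine ⟨δ, c, max A B, hδ, hc, lt_max_of_lt_left hA0, fun n h4 hnp hdvd => ?_⟩
  have hLeh := leh_of_congr h4 hnp hdvd
  have hco := leh_coprime hLeh
  have ha := leh_a hLeh
  have hom := leh_omega hLeh
  have hn0 : n ≠ 0 := by omega
  have hphi : 0 < n.totient := Nat.totient_pos.2 (by omega)
  obtain ⟨K, hK⟩ := hdvd
  have hK' : n - a n = K * n.totient := by rw [hK, mul_comm]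
  have hK1 : n - 1 = K * n.totient := by rw [← hK', ha]
  have hK2 : 2 ≤ K := by
    by_contra hlt
    have hcase : K = 0 ∨ K = 1 := by omega
    rcases hcase with hK0 | hK0
    · rw [hK0, zero_mul] at hK1; omega
    · rw [hK0, one_mul] at hK1
      exact hnp ((Nat.totient_eq_iff_prime (by omega)).1 hK1.symm)
  have h2phi : 2 * n.totient ≤ n + 1 := by
    have := Nat.mul_le_mul_right n.totient hK2
    omega
  have hun := h n (by omega) hco h2phi
  have hKle : (K : ℝ) ≤ (n : ℝ) / n.totient := by
    rw [le_div_iff₀ (by exact_mod_cast hphi)]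
    have : K * n.totient ≤ n := by omega
    exact_mod_cast this
  have hP2 : (2 : ℝ) ≤ n.minFac := by
    exact_mod_cast (Nat.minFac_prime (by omega : n ≠ 1)).two_le
  have hmain : c * (n.minFac : ℝ) ^ (max ((1 + δ) * (K : ℝ)) (Real.exp (δ * K))) ≤
      (n.primeFactors.card : ℝ) := by
    refine le_trans ?_ hun
    refine mul_le_mul_of_nonneg_left ?_ hc.le
    refine Real.rpow_le_rpow_of_exponent_le (by linarith) (max_le_max ?_ ?_)
    · exact mul_le_mul_of_nonneg_left hKle (by linarith)
    · exact Real.exp_le_exp.2 (mul_le_mul_of_nonneg_left hKle hδ.le)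
  have hW2 : (2 : ℝ) ≤ (n.primeFactors.card : ℝ) := by exact_mod_cast hom
  have hlW : Real.log 2 ≤ Real.log (n.primeFactors.card : ℝ) := Real.log_le_log (by norm_num) hW2
  have hexp : Real.exp (δ * K) ≤ A * Real.log (n.primeFactors.card : ℝ) := by
    have h1 : c * (2 : ℝ) ^ (Real.exp (δ * K)) ≤ (n.primeFactors.card : ℝ) := by
      refine le_trans ?_ hmain
      refine mul_le_mul_of_nonneg_left ?_ hc.le
      calc (2 : ℝ) ^ (Real.exp (δ * K)) ≤ (n.minFac : ℝ) ^ (Real.exp (δ * K)) :=
            Real.rpow_le_rpow (by norm_num) hP2 (Real.exp_pos _).le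
        _ ≤ _ := Real.rpow_le_rpow_of_exponent_le (by linarith) (le_max_right _ _)
    have h2 : Real.log c + Real.exp (δ * K) * Real.log 2 ≤
        Real.log (n.primeFactors.card : ℝ) := by
      have h3 := Real.log_le_log (by positivity) h1
      rwa [Real.log_mul hc.ne' (by positivity), Real.log_rpow (by norm_num)] at h3
    have h4 : - Real.log c ≤ |Real.log c| / Real.log 2 * Real.log (n.primeFactors.card : ℝ) := by
      have h5 := neg_abs_le (Real.log c)
      have h6 : |Real.log c| / Real.log 2 * Real.log 2 ≤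
          |Real.log c| / Real.log 2 * Real.log (n.primeFactors.card : ℝ) :=
        mul_le_mul_of_nonneg_left hlW (by positivity)
      rw [div_mul_cancel₀ _ hl2.ne'] at h6
      linarith
    rw [hA, div_mul_eq_mul_div, le_div_iff₀ hl2, add_mul, one_mul]
    linarith
  have hexp' : Real.exp (δ * K) ≤ max A B * Real.log (n.primeFactors.card : ℝ) :=
    hexp.trans (mul_le_mul_of_nonneg_right (le_max_left _ _) (by linarith))
  refine ⟨K, hK', hK2, hmain, hexp', fun hn16 => ?_⟩
  have hnR : (16 : ℝ) ≤ n := by exact_mod_cast hn16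
  have hlog16 : 2 < Real.log 16 := by
    have h1 : Real.log 16 = 4 * Real.log 2 := by
      rw [show (16 : ℝ) = 2 ^ 4 by norm_num, Real.log_pow]; norm_num
    have h2 := Real.log_two_gt_d9
    rw [h1]; linarith
  have hl1 : Real.log 16 ≤ Real.log n := Real.log_le_log (by norm_num) hnR
  have hll : Real.log (Real.log 16) ≤ Real.log (Real.log n) := Real.log_le_log (by linarith) hl1
  have hlll : L ≤ Real.log (Real.log (Real.log n)) := by
    rw [hL]; exact Real.log_le_log (by linarith) hll
  have hWle : Real.log (n.primeFactors.card : ℝ) ≤ 2 * Real.log (Real.log n) := by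
    have h1 : ((2 : ℝ) ^ n.primeFactors.card) ≤ n := by exact_mod_cast two_pow_omega hn0
    have h2 := Real.log_le_log (by positivity) h1
    rw [Real.log_pow] at h2
    have h3 : (n.primeFactors.card : ℝ) ≤ Real.log n / Real.log 2 := by
      rw [le_div_iff₀ hl2]; exact h2
    have h4 : (n.primeFactors.card : ℝ) ≤ (Real.log n) ^ 2 := by
      refine h3.trans ?_
      rw [div_le_iff₀ hl2]
      have h5 := Real.log_two_gt_d9
      have h6 : 1 ≤ Real.log n * Real.log 2 := by nlinarith
      nlinarith [h6, hl1]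
    have h5 := Real.log_le_log (by linarith) h4
    rw [Real.log_pow] at h5
    exact_mod_cast h5
  have h7 : Real.exp (δ * K) ≤ 2 * A * Real.log (Real.log n) := by
    calc Real.exp (δ * K) ≤ A * Real.log (n.primeFactors.card : ℝ) := hexp
      _ ≤ A * (2 * Real.log (Real.log n)) := mul_le_mul_of_nonneg_left hWle hA0.le
      _ = _ := by ring
  have hll0 : 0 < Real.log (Real.log n) := by linarith
  have h8 : δ * K ≤ Real.log (2 * A) + Real.log (Real.log (Real.log n)) := by
    have h9 := Real.log_le_log (Real.exp_pos _) h7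
    rwa [Real.log_exp, Real.log_mul (by positivity) hll0.ne'] at h9
  have h10 : Real.log (2 * A) ≤ |Real.log (2 * A)| / L * Real.log (Real.log (Real.log n)) := by
    have h11 : |Real.log (2 * A)| / L * L ≤
        |Real.log (2 * A)| / L * Real.log (Real.log (Real.log n)) :=
      mul_le_mul_of_nonneg_left hlll (by positivity)
    rw [div_mul_cancel₀ _ hL0.ne'] at h11
    linarith [le_abs_self (Real.log (2 * A))]
  have h12 : (K : ℝ) ≤ B * Real.log (Real.log (Real.log n)) := by
    rw [hB, div_mul_eq_mul_div, le_div_iff₀ hδ, add_mul, one_mul]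
    linarith
  exact h12.trans (mul_le_mul_of_nonneg_right (le_max_right _ _) (by linarith))

end Pool.Agent.Results.MP_b50d59_nt.LeastPrimeFactor
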