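import Pool.Agent.Results.MP_b50d59_nt.LargestPrimeExponent
import Pool.Agent.X174.WinN

/-!
# Composite `n` with `φ(n) ∣ n - a(n)` in windows longer than the square root

For every `0 < ε < 1` there is `δ > 0` such that for every sequence `v ≥ 1` of exponent of convergence at most `τ` and
`θ < 1`, outside a set of `α > 0` of Hausdorff dimension at most `(1 / 2 - δ + τ) / (1 - θ)`, for all but finitely many
`i` every composite `n > 4` with `|n - α v_i| ≤ v_i ^ θ` and `φ(n) ∣ n - a(n)` has largest prime factor `p < n ^ ε`, or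
`n^(1-ε) < p^(2t+1) < n^(1+ε)` for some `t ≥ 2` and more than `t + 1` prime factors of `n` are larger than `p n^(-ε)`.
For `v_i = b ^ i` and almost every `α` this covers windows of length `v_i ^ θ` with some `θ > 1 / 2`.
-/

set_option autoImplicit false

namespace Pool.Agent.Results.MP_b50d59_nt.LongWindows

open Finset
open Pool.Agent.X174 (winN cumN)

/-- the exponent of convergence of the sequence `v` is at most `τ` -/
def ExpLe (v : ℕ → ℝ) (τ : ℝ) : Prop := ∀ t : ℝ, τ < t → Summable (fun n : ℕ => (v n) ^ (-t))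

/-- **Theorem.** For every `0 < ε < 1` there is `δ` with `0 < δ < 1 / 2` such that for every sequence `v ≥ 1` of exponent
of convergence at most `τ ≥ 0` and every `θ < 1` there is a set `E` of Hausdorff dimension at most
`(1 / 2 - δ + τ) / (1 - θ)` such that for each `α > 0` outside `E`, for all but finitely many `i`: if `n > 4` is
composite, `|n - α v_i| ≤ v_i ^ θ`, `φ(n) ∣ n - a(n)` and `p` is the largest prime factor of `n`, then `p < n ^ ε` or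
there is `t ≥ 2` with `n^(1-ε) < p^(2t+1) < n^(1+ε)` such that more than `t + 1` prime factors of `n` are larger than
`p n^(-ε)`. -/
theorem result (ε : ℝ) (hε : 0 < ε) (hε1 : ε < 1) :
    (∃ δ : ℝ, 0 < δ ∧ δ < 1 / 2 ∧
      ∀ (v : ℕ → ℝ) (τ θ : ℝ), (∀ i, 1 ≤ v i) → 0 ≤ τ → ExpLe v τ → θ < 1 →
      ∃ E : Set ℝ, dimH E ≤ ENNReal.ofReal ((1 / 2 - δ + τ) / (1 - θ)) ∧
        ∀ α : ℝ, 0 < α → α ∉ E → ∃ i₀ : ℕ, ∀ i : ℕ, i₀ ≤ i →
          ∀ n : ℕ, 4 < n → |(n : ℝ) - α * v i| ≤ (v i) ^ θ → ¬ n.Prime → n.totient ∣ (n - Nca8c8b9b.a n) →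
          ∀ p : ℕ, p.Prime → p ∣ n → (∀ r : ℕ, r.Prime → r ∣ n → r ≤ p) →
            (p : ℝ) < (n : ℝ) ^ ε ∨ ∃ t : ℕ, 2 ≤ t ∧ (n : ℝ) ^ (1 - ε) < (p : ℝ) ^ (2 * t + 1) ∧
              (p : ℝ) ^ (2 * t + 1) < (n : ℝ) ^ (1 + ε) ∧
              t + 1 < (n.primeFactors.filter (fun r : ℕ => (p : ℝ) * (n : ℝ) ^ (-ε) < (r : ℝ))).card) ∧
    (∀ a : ℝ, 0 < a → ExpLe (fun n : ℕ => ((n : ℝ) + 1) ^ a) (1 / a)) ∧
    (∀ b : ℝ, 1 < b → ExpLe (fun n : ℕ => b ^ n) 0) := by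
  classical
  refine ⟨?_, fun κ hκ => Pool.Agent.Y854.GM.expLe_pow κ hκ, fun b hb => Pool.Agent.Y854.GM.expLe_geom b hb⟩
  obtain ⟨δ1, C, hδ1, hC, h⟩ := LargestPrimeExponent.result (ε / 2) (by positivity)
  set δ : ℝ := min δ1 (1 / 4) with hδ
  have hδ0 : 0 < δ := lt_min hδ1 (by norm_num)
  have hδa : δ ≤ δ1 := min_le_left _ _
  have hδb : δ ≤ 1 / 4 := min_le_right _ _
  refine ⟨δ, hδ0, by linarith, fun v τ θ hv hτ hE hθ => ?_⟩
  set P : ℕ → Prop := fun n => 4 < n ∧ ¬ n.Prime ∧ n.totient ∣ (n - Nca8c8b9b.a n) ∧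
      ∃ p : ℕ, p.Prime ∧ p ∣ n ∧ (∀ r : ℕ, r.Prime → r ∣ n → r ≤ p) ∧ (n : ℝ) ^ ε ≤ (p : ℝ) ∧
        ∀ t : ℕ, 2 ≤ t → (p : ℝ) ^ (2 * t + 1) ≤ (n : ℝ) ^ (1 - ε) ∨
          (n : ℝ) ^ (1 + ε) ≤ (p : ℝ) ^ (2 * t + 1) ∨
          (n.primeFactors.filter (fun r : ℕ => (p : ℝ) * (n : ℝ) ^ (-ε) < (r : ℝ))).card
            ≤ t + 1 with hP
  obtain ⟨K0, hK0⟩ : ∃ K0 : ℕ, 2 ≤ K0 ∧ ∀ K : ℕ, K0 ≤ K → (2 : ℝ) ^ (1 + ε / 2) ≤ (K : ℝ) ^ (ε / 2) := by
    have h1 : Filter.Tendsto (fun K : ℕ => (K : ℝ) ^ (ε / 2)) Filter.atTop Filter.atTop :=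
      (tendsto_rpow_atTop (by positivity)).comp tendsto_natCast_atTop_atTop
    obtain ⟨K0, hK0⟩ := Filter.eventually_atTop.1 (h1.eventually_ge_atTop ((2 : ℝ) ^ (1 + ε / 2)))
    exact ⟨max K0 2, le_max_right _ _, fun K hK => hK0 K ((le_max_left _ _).trans hK)⟩
  obtain ⟨hK02, hK0⟩ := hK0
  obtain ⟨B, hB, hcount⟩ := cumN P (1 / 2 - δ) (C * 2) (by linarith) (by positivity) K0 (fun K hK => by
    have hK2 : (2 : ℝ) ≤ K := by exact_mod_cast hK02.trans hK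
    have hKp : (0 : ℝ) < K := by linarith
    have hKK := hK0 K hK
    have hsub : {n : ℕ | K < n ∧ n ≤ 2 * K ∧ P n} ⊆
        (((Icc 1 (2 * K)).filter (fun n : ℕ => 4 < n ∧ ¬ n.Prime ∧ n.totient ∣ (n - Nca8c8b9b.a n) ∧
      ∃ p : ℕ, p.Prime ∧ p ∣ n ∧ (∀ r : ℕ, r.Prime → r ∣ n → r ≤ p) ∧ ((2 * K : ℕ) : ℝ) ^ (ε / 2) ≤ (p : ℝ) ∧
        ∀ t : ℕ, 2 ≤ t → (p : ℝ) ^ (2 * t + 1) ≤ ((2 * K : ℕ) : ℝ) ^ (1 - ε / 2) ∨
          ((2 * K : ℕ) : ℝ) ^ (1 + ε / 2) ≤ (p : ℝ) ^ (2 * t + 1) ∨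
          (n.primeFactors.filter (fun r : ℕ => (p : ℝ) * ((2 * K : ℕ) : ℝ) ^ (-(ε / 2)) < (r : ℝ))).card
            ≤ t + 1) : Finset ℕ) : Set ℕ) := by
      rintro n ⟨h1, h2, h3, h4, h5, p, h6, h7, h8, h9, h10⟩
      rw [Finset.mem_coe, mem_filter, mem_Icc]
      have hn1 : (K : ℝ) < n := by exact_mod_cast h1
      have hn2 : (n : ℝ) ≤ ((2 * K : ℕ) : ℝ) := by exact_mod_cast h2
      have hX : ((2 * K : ℕ) : ℝ) = 2 * K := by push_cast; ring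
      have hXp : (0 : ℝ) < ((2 * K : ℕ) : ℝ) := by rw [hX]; positivity
      have hnp : (0 : ℝ) < n := hKp.trans hn1
      -- x ^ (ε / 2) ≤ n ^ ε
      have e1 : ((2 * K : ℕ) : ℝ) ^ (ε / 2) ≤ (n : ℝ) ^ ε := by
        calc ((2 * K : ℕ) : ℝ) ^ (ε / 2) ≤ ((K : ℝ) ^ (2 : ℝ)) ^ (ε / 2) := by
              apply Real.rpow_le_rpow hXp.le _ (by positivity)
              rw [hX, Real.rpow_two]
              nlinarith
          _ = (K : ℝ) ^ ε := by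
              rw [← Real.rpow_mul hKp.le]
              congr 1
              ring
          _ ≤ (n : ℝ) ^ ε := Real.rpow_le_rpow hKp.le hn1.le hε.le
      have e2 : (n : ℝ) ^ (1 - ε) ≤ ((2 * K : ℕ) : ℝ) ^ (1 - ε / 2) := by
        calc (n : ℝ) ^ (1 - ε) ≤ ((2 * K : ℕ) : ℝ) ^ (1 - ε) := Real.rpow_le_rpow hnp.le hn2 (by linarith)
          _ ≤ _ := Real.rpow_le_rpow_of_exponent_le (by rw [hX]; linarith) (by linarith)
      have e3 : ((2 * K : ℕ) : ℝ) ^ (1 + ε / 2) ≤ (n : ℝ) ^ (1 + ε) := by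
        calc ((2 * K : ℕ) : ℝ) ^ (1 + ε / 2) = 2 ^ (1 + ε / 2) * (K : ℝ) ^ (1 + ε / 2) := by
              rw [hX, Real.mul_rpow (by norm_num) hKp.le]
          _ ≤ (K : ℝ) ^ (ε / 2) * (K : ℝ) ^ (1 + ε / 2) := mul_le_mul_of_nonneg_right hKK (by positivity)
          _ = (K : ℝ) ^ (1 + ε) := by
              rw [← Real.rpow_add hKp]
              congr 1
              ring
          _ ≤ _ := Real.rpow_le_rpow hKp.le hn1.le (by linarith)
      have e4 : (n : ℝ) ^ (-ε) ≤ ((2 * K : ℕ) : ℝ) ^ (-(ε / 2)) := by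
        rw [Real.rpow_neg hnp.le, Real.rpow_neg hXp.le]
        exact inv_anti₀ (by positivity) e1
      refine ⟨⟨by omega, h2⟩, h3, h4, h5, p, h6, h7, h8, e1.trans h9, fun t ht => ?_⟩
      rcases h10 t ht with h11 | h11 | h11
      · exact Or.inl (h11.trans e2)
      · exact Or.inr (Or.inl (e3.trans h11))
      · refine Or.inr (Or.inr (le_trans (card_le_card ?_) h11))
        intro r hr
        rw [mem_filter] at hr ⊢
        exact ⟨hr.1, lt_of_le_of_lt (mul_le_mul_of_nonneg_left e4 (Nat.cast_nonneg _)) hr.2⟩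
    have h1 := Set.ncard_le_ncard hsub (Finset.finite_toSet _)
    rw [Set.ncard_coe_finset] at h1
    refine (Nat.cast_le.2 h1).trans ?_
    have h2 := h (2 * K)
    refine le_trans ?_ (h2.trans ?_)
    · apply le_of_eq
      congr!
    · rw [mul_assoc]
      apply mul_le_mul_of_nonneg_left _ hC.le
      calc ((2 * K : ℕ) : ℝ) ^ (1 / 2 - δ1) ≤ ((2 * K : ℕ) : ℝ) ^ (1 / 2 - δ) := by
            apply Real.rpow_le_rpow_of_exponent_le _ (by linarith)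
            push_cast
            linarith
        _ = 2 ^ (1 / 2 - δ) * (K : ℝ) ^ (1 / 2 - δ) := by
            push_cast
            exact Real.mul_rpow (by norm_num) hKp.le
        _ ≤ 2 * (K : ℝ) ^ (1 / 2 - δ) := by
            apply mul_le_mul_of_nonneg_right _ (by positivity)
            calc (2 : ℝ) ^ (1 / 2 - δ) ≤ 2 ^ (1 : ℝ) :=
                  Real.rpow_le_rpow_of_exponent_le (by norm_num) (by linarith)
              _ = 2 := Real.rpow_one 2)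
  obtain ⟨E, h1, h2⟩ := winN P hv hτ hE (by linarith : 0 ≤ 1 / 2 - δ) hθ B hB hcount
  refine ⟨E, h1, fun α hα hαE => ?_⟩
  obtain ⟨i₀, hi⟩ := h2 α hα hαE
  refine ⟨i₀, fun i hi1 n hn4 hw hc hd p hp hpn hmax => ?_⟩
  by_contra hcon
  push Not at hcon
  obtain ⟨hcon1, hcon2⟩ := hcon
  refine hi i hi1 n (by omega) hw ⟨hn4, hc, hd, p, hp, hpn, hmax, hcon1, fun t ht => ?_⟩
  by_cases h3 : (p : ℝ) ^ (2 * t + 1) ≤ (n : ℝ) ^ (1 - ε)
  · exact Or.inl h3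
  · push Not at h3
    by_cases h4 : (n : ℝ) ^ (1 + ε) ≤ (p : ℝ) ^ (2 * t + 1)
    · exact Or.inr (Or.inl h4)
    · push Not at h4
      exact Or.inr (Or.inr (hcon2 t ht h3 h4))

end Pool.Agent.Results.MP_b50d59_nt.LongWindows
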