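import Pool.Agent.Results.MP_b50d59_nt.LargestPrimeExponent
import Pool.Agent.X283.DA.Dyadic

/-!
# Composite `n` with `φ(n) ∣ n - a(n)` near real powers and as denominators of approximations

For every `0 < ε < 1` there is `0 < δ < 1 / 2` such that with `s = 1 / 2 - δ` (SMALLER than the exponent
`1 / 2` of the known bound for the number of all solutions): all solutions `n` near `t ^ κ_n` or `n ^ t`,
and all solutions which are denominators of good (simultaneous, inhomogeneous) rational approximations,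
are, for almost all `t` or `x`, of the exceptional shape: the largest prime factor `p` is smaller
than `n ^ ε`, or `n ^ (1 - ε) < p ^ (2 t + 1) < n ^ (1 + ε)` for some `t ≥ 2` and more than `t + 1` prime
factors of `n` are larger than `p n ^ (-ε)`.
-/

set_option autoImplicit false

namespace Pool.Agent.Results.MP_b50d59_nt.PowersAndDenominators

open Finset
open Pool.Agent.X283.DA

/-- `n` is not a composite number larger than `4` with `φ(n) ∣ n - a(n)`, or its largest prime factor `p`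
is smaller than `n ^ ε`, or there is `t ≥ 2` with `n ^ (1 - ε) < p ^ (2 t + 1) < n ^ (1 + ε)` such that more
than `t + 1` prime factors of `n` are larger than `p n ^ (-ε)`. -/
def Shape (ε : ℝ) (n : ℕ) : Prop :=
  4 < n → ¬ n.Prime → n.totient ∣ (n - Nca8c8b9b.a n) →
    ∀ p : ℕ, p.Prime → p ∣ n → (∀ r : ℕ, r.Prime → r ∣ n → r ≤ p) →
      (p : ℝ) < (n : ℝ) ^ ε ∨ ∃ t : ℕ, 2 ≤ t ∧ (n : ℝ) ^ (1 - ε) < (p : ℝ) ^ (2 * t + 1) ∧
        (p : ℝ) ^ (2 * t + 1) < (n : ℝ) ^ (1 + ε) ∧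
        t + 1 < (n.primeFactors.filter (fun r : ℕ => (p : ℝ) * (n : ℝ) ^ (-ε) < (r : ℝ))).card

theorem not_shape {ε : ℝ} {n : ℕ} (h : ¬ Shape ε n) :
    4 < n ∧ ¬ n.Prime ∧ n.totient ∣ (n - Nca8c8b9b.a n) ∧
      ∃ p : ℕ, p.Prime ∧ p ∣ n ∧ (∀ r : ℕ, r.Prime → r ∣ n → r ≤ p) ∧ (n : ℝ) ^ ε ≤ (p : ℝ) ∧
        ∀ t : ℕ, 2 ≤ t → (p : ℝ) ^ (2 * t + 1) ≤ (n : ℝ) ^ (1 - ε) ∨
          (n : ℝ) ^ (1 + ε) ≤ (p : ℝ) ^ (2 * t + 1) ∨
          (n.primeFactors.filter (fun r : ℕ => (p : ℝ) * (n : ℝ) ^ (-ε) < (r : ℝ))).card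
            ≤ t + 1 := by
  unfold Shape at h
  push Not at h
  obtain ⟨h1, h2, h3, p, hp, hpn, hmax, h4, h5⟩ := h
  refine ⟨h1, h2, h3, p, hp, hpn, hmax, h4, fun t ht => ?_⟩
  by_cases h6 : (p : ℝ) ^ (2 * t + 1) ≤ (n : ℝ) ^ (1 - ε)
  · exact Or.inl h6
  · push Not at h6
    by_cases h7 : (n : ℝ) ^ (1 + ε) ≤ (p : ℝ) ^ (2 * t + 1)
    · exact Or.inr (Or.inl h7)
    · push Not at h7
      exact Or.inr (Or.inr (h5 t ht h6 h7))

theorem sparse (ε : ℝ) (hε : 0 < ε) (hε1 : ε < 1) :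
    ∃ δ : ℝ, 0 < δ ∧ δ < 1 / 2 ∧ Sparse {n : ℕ | ¬ Shape ε n} (1 / 2 - δ) := by
  classical
  obtain ⟨δ1, C, hδ1, hC, h⟩ := LargestPrimeExponent.result (ε / 2) (by positivity)
  set δ : ℝ := min δ1 (1 / 4) with hδ
  have hδ0 : 0 < δ := lt_min hδ1 (by norm_num)
  have hδa : δ ≤ δ1 := min_le_left _ _
  have hδb : δ ≤ 1 / 4 := min_le_right _ _
  refine ⟨δ, hδ0, by linarith, ?_⟩
  obtain ⟨K0, hK0⟩ : ∃ K0 : ℕ, 2 ≤ K0 ∧ ∀ K : ℕ, K0 ≤ K → (2 : ℝ) ^ (1 + ε / 2) ≤ (K : ℝ) ^ (ε / 2) := by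
    have h1 : Filter.Tendsto (fun K : ℕ => (K : ℝ) ^ (ε / 2)) Filter.atTop Filter.atTop :=
      (tendsto_rpow_atTop (by positivity)).comp tendsto_natCast_atTop_atTop
    obtain ⟨K0, hK0⟩ := Filter.eventually_atTop.1 (h1.eventually_ge_atTop ((2 : ℝ) ^ (1 + ε / 2)))
    exact ⟨max K0 2, le_max_right _ _, fun K hK => hK0 K ((le_max_left _ _).trans hK)⟩
  obtain ⟨hK02, hK0⟩ := hK0
  obtain ⟨B, hcount⟩ := cum_of_dyadic {n : ℕ | ¬ Shape ε n} (by linarith : 0 < 1 / 2 - δ) (C * 2)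
    (by positivity) K0 (fun K hK => by
    have hK2 : (2 : ℝ) ≤ K := by exact_mod_cast hK02.trans hK
    have hKp : (0 : ℝ) < K := by linarith
    have hKK := hK0 K hK
    have hsub : {n : ℕ | n ∈ {n : ℕ | ¬ Shape ε n} ∧ K < n ∧ n ≤ 2 * K} ⊆
        (((Icc 1 (2 * K)).filter (fun n : ℕ => 4 < n ∧ ¬ n.Prime ∧ n.totient ∣ (n - Nca8c8b9b.a n) ∧
      ∃ p : ℕ, p.Prime ∧ p ∣ n ∧ (∀ r : ℕ, r.Prime → r ∣ n → r ≤ p) ∧ ((2 * K : ℕ) : ℝ) ^ (ε / 2) ≤ (p : ℝ) ∧
        ∀ t : ℕ, 2 ≤ t → (p : ℝ) ^ (2 * t + 1) ≤ ((2 * K : ℕ) : ℝ) ^ (1 - ε / 2) ∨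
          ((2 * K : ℕ) : ℝ) ^ (1 + ε / 2) ≤ (p : ℝ) ^ (2 * t + 1) ∨
          (n.primeFactors.filter (fun r : ℕ => (p : ℝ) * ((2 * K : ℕ) : ℝ) ^ (-(ε / 2)) < (r : ℝ))).card
            ≤ t + 1) : Finset ℕ) : Set ℕ) := by
      rintro n ⟨hP, h1, h2⟩
      obtain ⟨h3, h4, h5, p, h6, h7, h8, h9, h10⟩ := not_shape hP
      rw [Finset.mem_coe, mem_filter, mem_Icc]
      have hn1 : (K : ℝ) < n := by exact_mod_cast h1
      have hn2 : (n : ℝ) ≤ ((2 * K : ℕ) : ℝ) := by exact_mod_cast h2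
      have hX : ((2 * K : ℕ) : ℝ) = 2 * K := by push_cast; ring
      have hXp : (0 : ℝ) < ((2 * K : ℕ) : ℝ) := by rw [hX]; positivity
      have hnp : (0 : ℝ) < n := hKp.trans hn1
      -- x ^ (ε / 2) ≤ n ^ ε
      have e1 : ((2 * K : ℕ) : ℝ) ^ (ε / 2) ≤ (n : ℝ) ^ ε := by
        calc ((2 * K : ℕ) : ℝ) ^ (ε / 2) ≤ ((K : ℝ) ^ (2 : ℝ)) ^ (ε / 2) := by
              apply Real.rpow_le_rpow hXp.le _ (by positivity)
              rw [hX, Real.rpow_two]
              nlinarith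
          _ = (K : ℝ) ^ ε := by
              rw [← Real.rpow_mul hKp.le]
              congr 1
              ring
          _ ≤ (n : ℝ) ^ ε := Real.rpow_le_rpow hKp.le hn1.le hε.le
      have e2 : (n : ℝ) ^ (1 - ε) ≤ ((2 * K : ℕ) : ℝ) ^ (1 - ε / 2) := by
        calc (n : ℝ) ^ (1 - ε) ≤ ((2 * K : ℕ) : ℝ) ^ (1 - ε) := Real.rpow_le_rpow hnp.le hn2 (by linarith)
          _ ≤ _ := Real.rpow_le_rpow_of_exponent_le (by rw [hX]; linarith) (by linarith)
      have e3 : ((2 * K : ℕ) : ℝ) ^ (1 + ε / 2) ≤ (n : ℝ) ^ (1 + ε) := by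
        calc ((2 * K : ℕ) : ℝ) ^ (1 + ε / 2) = 2 ^ (1 + ε / 2) * (K : ℝ) ^ (1 + ε / 2) := by
              rw [hX, Real.mul_rpow (by norm_num) hKp.le]
          _ ≤ (K : ℝ) ^ (ε / 2) * (K : ℝ) ^ (1 + ε / 2) := mul_le_mul_of_nonneg_right hKK (by positivity)
          _ = (K : ℝ) ^ (1 + ε) := by
              rw [← Real.rpow_add hKp]
              congr 1
              ring
          _ ≤ _ := Real.rpow_le_rpow hKp.le hn1.le (by linarith)
      have e4 : (n : ℝ) ^ (-ε) ≤ ((2 * K : ℕ) : ℝ) ^ (-(ε / 2)) := by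
        rw [Real.rpow_neg hnp.le, Real.rpow_neg hXp.le]
        exact inv_anti₀ (by positivity) e1
      refine ⟨⟨by omega, h2⟩, h3, h4, h5, p, h6, h7, h8, e1.trans h9, fun t ht => ?_⟩
      rcases h10 t ht with h11 | h11 | h11
      · exact Or.inl (h11.trans e2)
      · exact Or.inr (Or.inl (e3.trans h11))
      · refine Or.inr (Or.inr (le_trans (card_le_card ?_) h11))
        intro r hr
        rw [mem_filter] at hr ⊢
        exact ⟨hr.1, lt_of_le_of_lt (mul_le_mul_of_nonneg_left e4 (Nat.cast_nonneg _)) hr.2⟩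
    have h1 := Set.ncard_le_ncard hsub (Finset.finite_toSet _)
    rw [Set.ncard_coe_finset] at h1
    refine (Nat.cast_le.2 h1).trans ?_
    have h2 := h (2 * K)
    refine le_trans ?_ (h2.trans ?_)
    · apply le_of_eq
      congr!
    · rw [mul_assoc]
      apply mul_le_mul_of_nonneg_left _ hC.le
      calc ((2 * K : ℕ) : ℝ) ^ (1 / 2 - δ1) ≤ ((2 * K : ℕ) : ℝ) ^ (1 / 2 - δ) := by
            apply Real.rpow_le_rpow_of_exponent_le _ (by linarith)
            push_cast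
            linarith
        _ = 2 ^ (1 / 2 - δ) * (K : ℝ) ^ (1 / 2 - δ) := by
            push_cast
            exact Real.mul_rpow (by norm_num) hKp.le
        _ ≤ 2 * (K : ℝ) ^ (1 / 2 - δ) := by
            apply mul_le_mul_of_nonneg_right _ (by positivity)
            calc (2 : ℝ) ^ (1 / 2 - δ) ≤ 2 ^ (1 : ℝ) :=
                  Real.rpow_le_rpow_of_exponent_le (by norm_num) (by linarith)
              _ = 2 := Real.rpow_one 2)
  refine sparse_of_nat (by linarith) fun η hη => ⟨|B|, fun X hX => ?_⟩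
  have hX1 : (1 : ℝ) ≤ X := by exact_mod_cast hX
  calc _ ≤ B * (X : ℝ) ^ (1 / 2 - δ) := hcount X hX
    _ ≤ |B| * (X : ℝ) ^ (1 / 2 - δ) := mul_le_mul_of_nonneg_right (le_abs_self B) (by positivity)
    _ ≤ |B| * (X : ℝ) ^ (1 / 2 - δ + η) :=
        mul_le_mul_of_nonneg_left (Real.rpow_le_rpow_of_exponent_le hX1 (by linarith)) (abs_nonneg _)

/-- **Theorem.** For every `0 < ε < 1` there is `δ` with `0 < δ < 1 / 2` such that the property `Shape ε` of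
natural numbers holds near the real powers `t ^ κ_n` and `n ^ t` (in the sense of `GoodAtPowers` and
`GoodAtExponents`) and for the denominators of good simultaneous (inhomogeneous) rational approximations
(`GoodAtDenominators`, `GoodAtApproximations`), with the exponent `s = 1 / 2 - δ`. -/
theorem result (ε : ℝ) (hε : 0 < ε) (hε1 : ε < 1) :
    ∃ δ : ℝ, 0 < δ ∧ δ < 1 / 2 ∧
      GoodAtPowers (Shape ε) (1 / 2 - δ) ∧ GoodAtExponents (Shape ε) (1 / 2 - δ) ∧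
      GoodAtDenominators (Shape ε) (1 / 2 - δ) ∧ GoodAtApproximations (Shape ε) (1 / 2 - δ) := by
  obtain ⟨δ, h1, h2, h3⟩ := sparse ε hε hε1
  exact ⟨δ, h1, h2, pack (Shape ε) (by linarith) h3⟩

end Pool.Agent.Results.MP_b50d59_nt.PowersAndDenominators
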