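import Pool.Agent.Results.MP_b50d59_nt.LehmerSqrtLogLogSquared
import Pool.Agent.X283.DA.Pack

/-!
# No composite `m` with `φ(m) ∣ m - a(m)` near the real powers `t ^ κ_n` and `n ^ t` and among the
denominators of good rational approximations

Let `f_n(t)` be a family of functions of a real parameter `t` whose logarithmic slopes are locally bounded from below by
a positive constant and which locally is at least `w_n ≥ 1` for a sequence `w` of exponent of convergence at most `τ`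
(definition `Steep`). Examples: `t ^ κ_n` with `κ_n / log n → ∞` on `(1, ∞)`, `τ = 0`; `n ^ t` on `[a, ∞)`, `τ = 1 / a`.
Let `0 ≤ θ < 1`. For all `t` outside a set of Hausdorff dimension at most `(1 / 2 + τ) / (1 - θ)`, for all large `n`,
NO composite `m > 4` with `|m - f_n(t)| ≤ f_n(t) ^ θ` satisfies `φ(m) ∣ m - a(m)`.

For almost all `x ∈ ℝ ^ d` no large composite `q` with `φ(q) ∣ q - a(q)` is the denominator of a simultaneous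
(inhomogeneous) approximation of `x` of quality `q ^ (-θ_i)`, `θ_1 + ... + θ_d > 1 / 2`.

The number of exceptions up to `x` is from the starting result `LehmerSqrtLogLogSquared`, the passage to nonlinear
windows is `Pool.Agent.X16.NW`, the passage to denominators is `Pool.Agent.X283.DA`.
-/

set_option autoImplicit false

open Filter MeasureTheory

namespace Pool.Agent.Results.MP_b50d59_nt.RealPowers

/-- the exponent of convergence of the sequence `w` is at most `τ` -/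
def ExpLe (w : ℕ → ℝ) (τ : ℝ) : Prop := ∀ p : ℝ, τ < p → Summable (fun n : ℕ => (w n) ^ (-p))

/-- The set `I` of parameters is a countable union of sets `J`, such that on `J`, for all large `n`, `f_n ≥ w_n ≥ 1` for
a sequence `w` of exponent of convergence at most `τ` and the logarithmic slopes of `f_n` are at least `c > 0`. -/
def Steep (f : ℕ → ℝ → ℝ) (I : Set ℝ) (τ : ℝ) : Prop :=
  ∃ J : ℕ → Set ℝ, I ⊆ ⋃ m, J m ∧ ∀ m, ∃ (w : ℕ → ℝ) (c : ℝ) (n₁ : ℕ), 0 < c ∧ ExpLe w τ ∧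
    ∀ n, n₁ ≤ n → 1 ≤ w n ∧ ∀ t ∈ J m, w n ≤ f n t ∧ ∀ u ∈ J m, t ≤ u → c * f n t * (u - t) ≤ f n u - f n t

/-- the solutions of the question: the composite `m > 4` with `φ(m) ∣ m - a(m)` -/
def Sol : Set ℕ := {m : ℕ | 4 < m ∧ ¬ m.Prime ∧ m.totient ∣ (m - Nca8c8b9b.a m)}

lemma count (ε : ℝ) (hε : 0 < ε) : ∃ C : ℝ, ∀ X : ℕ, 1 ≤ X →
    ({m : ℕ | m ∈ Sol ∧ m ≤ X}.ncard : ℝ) ≤ C * (X : ℝ) ^ ((1 : ℝ) / 2 + ε) := by
  classical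
  obtain ⟨C, hC, h⟩ := LehmerSqrtLogLogSquared.result
  refine ⟨C, fun X hX => ?_⟩
  have hX1 : (1 : ℝ) ≤ X := by exact_mod_cast hX
  rcases Nat.lt_or_ge X 2 with h2 | h2
  · have : {m : ℕ | m ∈ Sol ∧ m ≤ X} = ∅ := by
      rw [Set.eq_empty_iff_forall_notMem]
      rintro m ⟨⟨h3, -⟩, h4⟩
      omega
    rw [this, Set.ncard_empty]
    push_cast
    positivity
  · have e : {m : ℕ | m ∈ Sol ∧ m ≤ X} = (((Finset.Icc 1 X).filter (fun n : ℕ =>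
        4 < n ∧ ¬ n.Prime ∧ n.totient ∣ (n - Nca8c8b9b.a n)) : Finset ℕ) : Set ℕ) := by
      ext m
      simp only [Sol, Set.mem_setOf_eq, Finset.coe_filter, Finset.mem_Icc]
      constructor
      · rintro ⟨h3, h4⟩
        exact ⟨⟨by omega, h4⟩, h3⟩
      · rintro ⟨h3, h4⟩
        exact ⟨h4, h3.2⟩
    rw [e, Set.ncard_coe_finset]
    refine (h X h2).trans ?_
    have h5 : Real.exp (-(Real.log (Real.log X)) ^ 2 / 48) ≤ 1 := by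
      rw [Real.exp_le_one_iff]
      have := sq_nonneg (Real.log (Real.log X))
      linarith
    calc C * Real.sqrt X * Real.exp (-(Real.log (Real.log X)) ^ 2 / 48) ≤ C * Real.sqrt X * 1 :=
          mul_le_mul_of_nonneg_left h5 (by positivity)
      _ = C * (X : ℝ) ^ ((1 : ℝ) / 2) := by rw [mul_one, Real.sqrt_eq_rpow]
      _ ≤ C * (X : ℝ) ^ ((1 : ℝ) / 2 + ε) :=
          mul_le_mul_of_nonneg_left (Real.rpow_le_rpow_of_exponent_le hX1 (by linarith)) hC.le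

lemma part1 (f : ℕ → ℝ → ℝ) (I : Set ℝ) (τ θ : ℝ) (hf : Steep f I τ) (hτ : 0 ≤ τ) (hθ0 : 0 ≤ θ) (hθ : θ < 1) :
    ∃ E : Set ℝ, dimH E ≤ ENNReal.ofReal ((1 / 2 + τ) / (1 - θ)) ∧
      ∀ t ∈ I, t ∉ E → ∃ n₀ : ℕ, ∀ n : ℕ, n₀ ≤ n → ∀ m : ℕ, |(m : ℝ) - f n t| ≤ (f n t) ^ θ →
        4 < m → ¬ m.Prime → ¬ m.totient ∣ (m - Nca8c8b9b.a m) := by
  obtain ⟨E, h2, h3⟩ := Pool.Agent.X16.NW.windows_loc Sol (fun k : ℕ => (k : ℝ)) hτ
    (s := 1 / 2) (by norm_num) hθ0 hθ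
    (fun ε hε => Pool.Agent.X16.NW.count_nat Sol (by norm_num) count ε hε) I f hf
  refine ⟨E, h2, fun t ht htE => ?_⟩
  obtain ⟨n₀, hn⟩ := h3 t ht htE
  refine ⟨n₀, fun n hn1 m hw h4 h5 h6 => ?_⟩
  exact absurd (hn n hn1 m ⟨h4, h5, h6⟩) (not_lt.2 hw)

/-- **Theorem.** (1) Let `f` be a steep family on `I` with exponent `τ ≥ 0` and `0 ≤ θ < 1`. There is a set `E` of
Hausdorff dimension at most `(1 / 2 + τ) / (1 - θ)` such that for each `t ∈ I` outside `E`, for all large `n`, no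
composite `m > 4` with `|m - f_n(t)| ≤ f_n(t) ^ θ` satisfies `φ(m) ∣ m - a(m)`.

(2), (3) The families `t ^ κ_n`, `κ_n / log n → ∞`, on `(1, ∞)` and `n ^ t` on `[a, ∞)` are steep with exponents `0` and
`1 / a`.

(4), (5) Let `0 ≤ θ < 1 / 2`. For almost all `t > 1` the conclusion of (1) holds for `f_n(t) = t ^ κ_n`, and for almost
all `t > 2 / (1 - 2 θ)` for `f_n(t) = n ^ t`.

(6) Let `θ, y ∈ ℝ ^ d`, `θ_i ≥ 0` and `θ_1 + ... + θ_d > 1 / 2`. For almost all `x ∈ ℝ ^ d` no large composite `q` such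
that `q x_i` is within `q ^ (-θ_i)` of `y_i` modulo `1`, for all `i`, satisfies `φ(q) ∣ q - a(q)`.

(7) Let `θ ≥ 0` and `y` be real. For all real `x` outside a set of Hausdorff dimension at most `3 / (2 (1 + θ))`, no
large composite `q` such that `q x` is within `q ^ (-θ)` of `y` modulo `1` satisfies `φ(q) ∣ q - a(q)`. -/
theorem result :
    (∀ (f : ℕ → ℝ → ℝ) (I : Set ℝ) (τ θ : ℝ), Steep f I τ → 0 ≤ τ → 0 ≤ θ → θ < 1 →
      ∃ E : Set ℝ, dimH E ≤ ENNReal.ofReal ((1 / 2 + τ) / (1 - θ)) ∧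
        ∀ t ∈ I, t ∉ E → ∃ n₀ : ℕ, ∀ n : ℕ, n₀ ≤ n → ∀ m : ℕ, |(m : ℝ) - f n t| ≤ (f n t) ^ θ →
          4 < m → ¬ m.Prime → ¬ m.totient ∣ (m - Nca8c8b9b.a m)) ∧
    (∀ κ : ℕ → ℝ, Tendsto (fun n : ℕ => κ n / Real.log n) atTop atTop →
      Steep (fun n t => t ^ κ n) (Set.Ioi (1 : ℝ)) 0) ∧
    (∀ a : ℝ, 0 < a → Steep (fun n t => (n : ℝ) ^ t) (Set.Ici a) (1 / a)) ∧
    (∀ κ : ℕ → ℝ, Tendsto (fun n : ℕ => κ n / Real.log n) atTop atTop → ∀ θ : ℝ, 0 ≤ θ → θ < 1 / 2 →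
      ∀ᵐ t : ℝ, 1 < t → ∃ n₀ : ℕ, ∀ n : ℕ, n₀ ≤ n → ∀ m : ℕ, |(m : ℝ) - t ^ κ n| ≤ (t ^ κ n) ^ θ →
          4 < m → ¬ m.Prime → ¬ m.totient ∣ (m - Nca8c8b9b.a m)) ∧
    (∀ θ : ℝ, 0 ≤ θ → θ < 1 / 2 → ∀ᵐ t : ℝ, 2 / (1 - 2 * θ) < t →
      ∃ n₀ : ℕ, ∀ n : ℕ, n₀ ≤ n → ∀ m : ℕ, |(m : ℝ) - (n : ℝ) ^ t| ≤ ((n : ℝ) ^ t) ^ θ →
          4 < m → ¬ m.Prime → ¬ m.totient ∣ (m - Nca8c8b9b.a m)) ∧
    (∀ (d : ℕ) (θ y : Fin d → ℝ), (∀ i, 0 ≤ θ i) → 1 / 2 < ∑ i, θ i → ∀ᵐ x : Fin d → ℝ,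
      ∃ q₀ : ℕ, ∀ q : ℕ, q₀ ≤ q → (∀ i, ∃ p : ℤ, |(q : ℝ) * x i - p - y i| ≤ (q : ℝ) ^ (-θ i)) →
          4 < q → ¬ q.Prime → ¬ q.totient ∣ (q - Nca8c8b9b.a q)) ∧
    (∀ θ y : ℝ, 0 ≤ θ → ∃ E : Set ℝ, dimH E ≤ ENNReal.ofReal (3 / (2 * (1 + θ))) ∧ ∀ x : ℝ, x ∉ E →
      ∃ q₀ : ℕ, ∀ q : ℕ, q₀ ≤ q → (∃ p : ℤ, |(q : ℝ) * x - p - y| ≤ (q : ℝ) ^ (-θ)) →
          4 < q → ¬ q.Prime → ¬ q.totient ∣ (q - Nca8c8b9b.a q)) := by
  have hcount : ∀ ε : ℝ, 0 < ε → ∃ C : ℝ, ∀ X : ℝ, 1 ≤ X → {t : ℕ | t ∈ Sol ∧ (t : ℝ) ≤ X}.Finite ∧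
      ({t : ℕ | t ∈ Sol ∧ (t : ℝ) ≤ X}.ncard : ℝ) ≤ C * X ^ ((1 : ℝ) / 2 + ε) :=
    fun ε hε => Pool.Agent.X16.NW.count_nat Sol (by norm_num) count ε hε
  refine ⟨fun f I τ θ hf hτ hθ0 hθ => part1 f I τ θ hf hτ hθ0 hθ,
    fun κ hκ => Pool.Agent.X16.NW.loc_rpow κ hκ, fun a ha => Pool.Agent.X16.NW.loc_npow a ha,
    fun κ hκ θ hθ0 hθ => ?_, fun θ hθ0 hθ => ?_,
    fun d θ y hθ hsum => ?_, fun θ y hθ => ?_⟩
  · filter_upwards [Pool.Agent.X16.NW.ae_rpow Sol (fun k : ℕ => (k : ℝ)) (by norm_num) hcount κ hκ θ hθ0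
      (by linarith)] with t ht ht1
    obtain ⟨n₀, hn⟩ := ht ht1
    exact ⟨n₀, fun n hn1 m hw h4 h5 h6 => absurd (hn n hn1 m ⟨h4, h5, h6⟩) (not_lt.2 hw)⟩
  · filter_upwards [Pool.Agent.X16.NW.ae_npow Sol (fun k : ℕ => (k : ℝ)) (by norm_num) hcount θ hθ0
      (by linarith)] with t ht ht1
    have h1 : 1 / (1 - 1 / 2 - θ) = 2 / (1 - 2 * θ) := by
      rw [div_eq_div_iff (by linarith) (by linarith)]
      ring
    obtain ⟨n₀, hn⟩ := ht (by rw [h1]; exact ht1)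
    exact ⟨n₀, fun n hn1 m hw h4 h5 h6 => absurd (hn n hn1 m ⟨h4, h5, h6⟩) (not_lt.2 hw)⟩
  · filter_upwards [Pool.Agent.X283.DA.ae_simultaneous (by norm_num) hcount d θ y hθ hsum] with x hx
    obtain ⟨q₀, h⟩ := hx
    exact ⟨q₀, fun q hq hcl h4 h5 h6 => h q hq hcl ⟨h4, h5, h6⟩⟩
  · refine ⟨_, (Pool.Agent.X283.DA.dim_denominators (by norm_num) hcount θ y hθ).trans
      (le_of_eq ?_), fun x hx => ?_⟩
    · congr 1
      rw [div_eq_div_iff (by linarith) (by linarith)]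
      ring
    · simp only [Set.mem_setOf_eq, not_forall, not_exists, not_and] at hx
      obtain ⟨q₀, h⟩ := hx
      exact ⟨q₀, fun q hq ⟨p, hp⟩ h4 h5 h6 => h q hq ⟨h4, h5, h6⟩ p hp⟩

end Pool.Agent.Results.MP_b50d59_nt.RealPowers
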